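import Mathlib

/-!
A Banach space with the separable complementation property which has a subspace of density `ℵ₁`
that is not contained in any complemented subspace of density `ℵ₁`.

The space is the kernel of the sum map from the `ℓ¹`-sum of the spaces `ℓ²(A)` to `ℓ²(Γ)`, where `A`
runs over a cofinal family of countable subsets of a set `Γ` of size `ℵ₁` and over a very
independent family of `2 ^ ℵ₁` large subsets of `Γ`.
-/

set_option autoImplicit false

open scoped ENNReal BigOperators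
open RCLike TopologicalSpace Cardinal Set

namespace Pool.Agent.Results.MP_52c726_an.Counterexample

/-- `V` is the range of a bounded linear projection of `X`. -/
def IsComplemented (𝕜 : Type) [RCLike 𝕜] {X : Type} [NormedAddCommGroup X] [NormedSpace 𝕜 X]
    (V : Submodule 𝕜 X) : Prop :=
  ∃ P : X →L[𝕜] X, (∀ x, P (P x) = P x) ∧ Set.range P = (V : Set X)

/-- The separable complementation property. -/
def HasSCP (𝕜 : Type) [RCLike 𝕜] (X : Type) [NormedAddCommGroup X] [NormedSpace 𝕜 X] : Prop :=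
  ∀ S : Submodule 𝕜 X, IsClosed (S : Set X) → IsSeparable (S : Set X) →
    ∃ T : Submodule 𝕜 X, S ≤ T ∧ IsClosed (T : Set X) ∧ IsSeparable (T : Set X) ∧
      IsComplemented 𝕜 T

/-- The density character: the least cardinality of a dense subset. -/
noncomputable def dens (Y : Type) [TopologicalSpace Y] : Cardinal.{0} :=
  sInf {κ | ∃ D : Set Y, Dense D ∧ #D = κ}


section Comb

variable {𝕜 : Type*} [RCLike 𝕜] {E : Type*} [NormedAddCommGroup E] [NormedSpace 𝕜 E]
variable {J Γ : Type*}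

theorem sum_norm_le_norm_one (u : lp (fun _ : J => E) 1) (G : Finset J) :
    ∑ j ∈ G, ‖u j‖ ≤ ‖u‖ := by
  have h := lp.sum_rpow_le_norm_rpow (p := (1 : ℝ≥0∞)) (by simp) u G
  simpa using h

theorem comb_step [DecidableEq J] [DecidableEq Γ]
    (S : J → Set Γ) (A : Set Γ) (i : J) (φ : Γ → (E →L[𝕜] 𝕜))
    (s : Γ → lp (fun _ : J => E) 1)
    (hsum : ∀ γ ∈ A, HasSum (fun j => φ γ (s γ j)) 1)
    (hzero : ∀ γ ∈ A, ∀ j, γ ∉ S j → φ γ (s γ j) = 0)
    (hi : ∀ γ ∈ A, s γ i = 0)
    (h2 : ∀ G : Finset J, i ∉ G → ∀ K : Finset Γ, ∃ γ ∈ A, γ ∉ K ∧ ∀ j ∈ G, γ ∉ S j)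
    (n : ℕ) :
    ∃ (K : Finset Γ) (θ : Γ → ℝ) (G : Finset J) (ξ : J → Γ) (η : J → ℝ),
      (↑K ⊆ A) ∧ K.card = n ∧ (∀ γ, |θ γ| = 1) ∧ i ∉ G ∧ (∀ j, |η j| ≤ 1) ∧
      (n : ℝ) / 2 ≤ ∑ j ∈ G, η j * re (φ (ξ j) ((∑ γ ∈ K, (θ γ : 𝕜) • s γ : lp (fun _ : J => E) 1) j)) := by
  induction n with
  | zero =>
    obtain ⟨γ₀, -, -, -⟩ := h2 ∅ (by simp) ∅
    refine ⟨∅, fun _ => 1, ∅, fun _ => γ₀, fun _ => 0, by simp, by simp, by simp, by simp, by simp, by simp⟩
  | succ n ih =>
    obtain ⟨K, θ, G, ξ, η, hKA, hKn, hθ, hiG, hη, hmain⟩ := ih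
    obtain ⟨γ, hγA, hγK, hγG⟩ := h2 G hiG K
    set u : lp (fun _ : J => E) 1 := ∑ γ ∈ K, (θ γ : 𝕜) • s γ with hu
    -- finite set carrying the mass of `s γ`
    have hre : HasSum (fun j => re (φ γ (s γ j))) 1 := by
      have := (hsum γ hγA).mapL (RCLike.reCLM (K := 𝕜))
      simpa using this
    have hev : ∀ᶠ G₁ : Finset J in Filter.atTop, (1 : ℝ) / 2 < ∑ j ∈ G₁, re (φ γ (s γ j)) :=
      hre.eventually (lt_mem_nhds (by norm_num))
    obtain ⟨G₁, hG₁, hG₁G⟩ := (hev.and (Filter.eventually_ge_atTop G)).exists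
    set G' : Finset J := (G₁ \ G).erase i with hG'
    have hdisj : Disjoint G G' := by
      rw [Finset.disjoint_left]
      intro j hj hj'
      simp [hG', hj] at hj'
    have hG'sum : (1 : ℝ) / 2 ≤ ∑ j ∈ G', re (φ γ (s γ j)) := by
      have h1 : ∑ j ∈ G', re (φ γ (s γ j)) = ∑ j ∈ G₁, re (φ γ (s γ j)) := by
        apply Finset.sum_subset
        · intro j hj
          simp only [hG', Finset.mem_erase, Finset.mem_sdiff] at hj
          exact hj.2.1
        · intro j hj hj'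
          simp only [hG', Finset.mem_erase, Finset.mem_sdiff, not_and, not_not] at hj'
          by_cases hji : j = i
          · subst hji
            rw [hi γ hγA]; simp
          · have := hj' hji hj
            rw [hzero γ hγA j (hγG j this)]; simp
      rw [h1]; exact hG₁.le
    set a : ℝ := ∑ j ∈ G, η j * re (φ (ξ j) (s γ j)) + ∑ j ∈ G', re (φ γ (u j)) with ha
    obtain ⟨t, ht, hta⟩ : ∃ t : ℝ, |t| = 1 ∧ 0 ≤ t * a := by
      by_cases h : 0 ≤ a
      · exact ⟨1, by simp, by simpa using h⟩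
      · exact ⟨-1, by simp, by linarith⟩
    have htt : t * t = 1 := by
      have := congrArg (fun x => x ^ 2) ht
      simp only [sq_abs, one_pow] at this
      linarith [this, sq t]
    refine ⟨insert γ K, Function.update θ γ t, G ∪ G', fun j => if j ∈ G' then γ else ξ j,
      fun j => if j ∈ G' then t else η j, ?_, ?_, ?_, ?_, ?_, ?_⟩
    · intro x hx
      rcases Finset.mem_insert.1 (Finset.mem_coe.1 hx) with rfl | hx
      · exact hγA
      · exact hKA hx
    · rw [Finset.card_insert_of_notMem hγK, hKn]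
    · intro x
      by_cases hx : x = γ
      · subst hx; simpa using ht
      · simp [Function.update_of_ne hx, hθ x]
    · simp [hiG, hG']
    · intro j
      by_cases hj : j ∈ G'
      · simp [hj, ht]
      · simp [hj, hη j]
    · have hsumK : (∑ x ∈ insert γ K, ((Function.update θ γ t x : ℝ) : 𝕜) • s x
          : lp (fun _ : J => E) 1) = (t : 𝕜) • s γ + u := by
        rw [Finset.sum_insert hγK]
        congr 1
        · simp
        · rw [hu]
          apply Finset.sum_congr rfl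
          intro x hx
          have : x ≠ γ := fun h => hγK (h ▸ hx)
          rw [Function.update_of_ne this]
      rw [hsumK, Finset.sum_union hdisj]
      have e1 : ∑ j ∈ G, (if j ∈ G' then t else η j) *
          re (φ (if j ∈ G' then γ else ξ j) (((t : 𝕜) • s γ + u : lp (fun _ : J => E) 1) j))
          = t * ∑ j ∈ G, η j * re (φ (ξ j) (s γ j)) + ∑ j ∈ G, η j * re (φ (ξ j) (u j)) := by
        rw [Finset.mul_sum, ← Finset.sum_add_distrib]
        apply Finset.sum_congr rfl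
        intro j hj
        have hj' : j ∉ G' := Finset.disjoint_left.1 hdisj hj
        simp only [hj', if_false]
        rw [lp.coeFn_add, lp.coeFn_smul]
        simp only [Pi.add_apply, Pi.smul_apply, map_add, map_smul, smul_eq_mul, re_ofReal_mul]
        ring
      have e2 : ∑ j ∈ G', (if j ∈ G' then t else η j) *
          re (φ (if j ∈ G' then γ else ξ j) (((t : 𝕜) • s γ + u : lp (fun _ : J => E) 1) j))
          = ∑ j ∈ G', re (φ γ (s γ j)) + t * ∑ j ∈ G', re (φ γ (u j)) := by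
        rw [Finset.mul_sum, ← Finset.sum_add_distrib]
        apply Finset.sum_congr rfl
        intro j hj
        simp only [hj, if_true]
        rw [lp.coeFn_add, lp.coeFn_smul]
        simp only [Pi.add_apply, Pi.smul_apply, map_add, map_smul, smul_eq_mul, re_ofReal_mul]
        rw [mul_add, ← mul_assoc, htt, one_mul]
      rw [e1, e2]
      push_cast
      nlinarith [hta, hmain, hG'sum, ha]

theorem comb_false [DecidableEq J] [DecidableEq Γ]
    (S : J → Set Γ) (A : Set Γ) (i : J) (φ : Γ → (E →L[𝕜] 𝕜)) (hφ : ∀ γ, ‖φ γ‖ ≤ 1)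
    (s : Γ → lp (fun _ : J => E) 1)
    (hsum : ∀ γ ∈ A, HasSum (fun j => φ γ (s γ j)) 1)
    (hzero : ∀ γ ∈ A, ∀ j, γ ∉ S j → φ γ (s γ j) = 0)
    (hi : ∀ γ ∈ A, s γ i = 0)
    (h2 : ∀ G : Finset J, i ∉ G → ∀ K : Finset Γ, ∃ γ ∈ A, γ ∉ K ∧ ∀ j ∈ G, γ ∉ S j)
    (C : ℝ)
    (hC : ∀ K : Finset Γ, (↑K ⊆ A) → ∀ θ : Γ → ℝ, (∀ γ, |θ γ| = 1) →
      ‖(∑ γ ∈ K, (θ γ : 𝕜) • s γ : lp (fun _ : J => E) 1)‖ ^ 2 ≤ C * K.card) : False := by
  obtain ⟨n, hn⟩ := exists_nat_gt (4 * C)
  obtain ⟨K, θ, G, ξ, η, hKA, hKn, hθ, hiG, hη, hmain⟩ :=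
    comb_step S A i φ s hsum hzero hi h2 (n + 1)
  set u : lp (fun _ : J => E) 1 := ∑ γ ∈ K, (θ γ : 𝕜) • s γ with hu
  have h1 : ∑ j ∈ G, η j * re (φ (ξ j) (u j)) ≤ ∑ j ∈ G, ‖u j‖ := by
    apply Finset.sum_le_sum
    intro j _
    calc η j * re (φ (ξ j) (u j)) ≤ |η j * re (φ (ξ j) (u j))| := le_abs_self _
      _ = |η j| * |re (φ (ξ j) (u j))| := abs_mul _ _
      _ ≤ 1 * ‖u j‖ := by
          apply mul_le_mul (hη j) _ (abs_nonneg _) zero_le_one
          calc |re (φ (ξ j) (u j))| ≤ ‖φ (ξ j) (u j)‖ := RCLike.abs_re_le_norm _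
            _ ≤ ‖φ (ξ j)‖ * ‖u j‖ := ContinuousLinearMap.le_opNorm _ _
            _ ≤ 1 * ‖u j‖ := by gcongr; exact hφ _
            _ = ‖u j‖ := one_mul _
      _ = ‖u j‖ := one_mul _
  have h3 := sum_norm_le_norm_one u G
  have h4 := hC K hKA θ hθ
  rw [← hu, hKn] at h4
  push_cast at h4 hmain
  have h5 : ((n : ℝ) + 1) / 2 ≤ ‖u‖ := by linarith
  have h6 : (((n : ℝ) + 1) / 2) ^ 2 ≤ ‖u‖ ^ 2 := by
    apply pow_le_pow_left₀ (by positivity) h5
  nlinarith [h6, h4, hn, Nat.cast_nonneg (α := ℝ) n]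

end Comb

section Ker

variable {𝕜 : Type*} [RCLike 𝕜] {E : Type*} [NormedAddCommGroup E] [NormedSpace 𝕜 E]
  [CompleteSpace E]
variable {J Γ : Type*}

/-- The subspace of those absolutely summable families `b` with `b j ∈ F j` for all `j`, and with
sum zero. -/
noncomputable def kerSpace (F : J → Submodule 𝕜 E) : Submodule 𝕜 (lp (fun _ : J => E) 1) :=
  LinearMap.ker (lp.tsumCLM 𝕜 J E).toLinearMap ⊓
    ⨅ j, (F j).comap (lp.evalCLM 𝕜 (fun _ : J => E) 1 j).toLinearMap

theorem mem_kerSpace {F : J → Submodule 𝕜 E} {b : lp (fun _ : J => E) 1} :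
    b ∈ kerSpace F ↔ (∑' j, b j = 0) ∧ ∀ j, b j ∈ F j := by
  simp only [kerSpace, Submodule.mem_inf, LinearMap.mem_ker, Submodule.mem_iInf,
    Submodule.mem_comap]
  rfl

theorem isClosed_kerSpace {F : J → Submodule 𝕜 E} (hF : ∀ j, IsClosed (F j : Set E)) :
    IsClosed (kerSpace F : Set (lp (fun _ : J => E) 1)) := by
  have : (kerSpace F : Set (lp (fun _ : J => E) 1)) =
      (lp.tsumCLM 𝕜 J E) ⁻¹' {0} ∩ ⋂ j, (lp.evalCLM 𝕜 (fun _ : J => E) 1 j) ⁻¹' (F j) := by
    ext b
    simp only [SetLike.mem_coe, mem_kerSpace, Set.mem_inter_iff, Set.mem_preimage,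
      Set.mem_singleton_iff, Set.mem_iInter]
    rfl
  rw [this]
  apply IsClosed.inter
  · exact isClosed_singleton.preimage (lp.tsumCLM 𝕜 J E).continuous
  · exact isClosed_iInter fun j => (hF j).preimage (lp.evalCLM 𝕜 (fun _ : J => E) 1 j).continuous

theorem hasSum_coe (b : lp (fun _ : J => E) 1) : HasSum (fun j => b j) (∑' j, b j) :=
  (Memℓp.summable_of_one (lp.memℓp b)).hasSum

theorem tsum_single [DecidableEq J] (c : J) (v : E) :
    ∑' j, (lp.single (E := fun _ : J => E) 1 c v) j = v := by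
  rw [tsum_eq_single c]
  · simp
  · intro j hj
    simp [Pi.single_eq_of_ne hj]

theorem pre_mem [DecidableEq J] {F : J → Submodule 𝕜 E} {i c : J} {v : E} (hi : v ∈ F i)
    (hc : v ∈ F c) :
    lp.single (E := fun _ : J => E) 1 i v - lp.single (E := fun _ : J => E) 1 c v ∈ kerSpace F := by
  rw [mem_kerSpace]
  constructor
  · have h := ((hasSum_coe (lp.single (E := fun _ : J => E) 1 i v)).sub
      (hasSum_coe (lp.single (E := fun _ : J => E) 1 c v))).tsum_eq
    rw [tsum_single, tsum_single, sub_self] at h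
    rw [← h]
    rfl
  · intro j
    rw [lp.coeFn_sub, Pi.sub_apply]
    apply Submodule.sub_mem
    · by_cases h : j = i
      · subst h; simpa using hi
      · simp [Pi.single_eq_of_ne h]
    · by_cases h : j = c
      · subst h; simpa using hc
      · simp [Pi.single_eq_of_ne h]

/-- No bounded operator on the kernel space can be the identity on the small part and miss the
coordinate `i`. -/
theorem no_operator [DecidableEq J] [DecidableEq Γ]
    (F : J → Submodule 𝕜 E) (S : J → Set Γ) (r : Γ → E) (φ : Γ → (E →L[𝕜] 𝕜))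
    (hφ : ∀ γ, ‖φ γ‖ ≤ 1) (hφr : ∀ γ, φ γ (r γ) = 1)
    (hrF : ∀ j, ∀ γ ∈ S j, r γ ∈ F j)
    (hφF : ∀ j, ∀ γ ∉ S j, ∀ x ∈ F j, φ γ x = 0)
    (B : ℝ) (hB : ∀ K : Finset Γ, ∀ θ : Γ → ℝ, (∀ γ, |θ γ| = 1) →
      ‖∑ γ ∈ K, (θ γ : 𝕜) • r γ‖ ^ 2 ≤ B * K.card)
    (J₀ : Set J) (i : J) (hi : i ∉ J₀)
    (h1 : ∀ K : Finset Γ, ↑K ⊆ S i → ∃ c ∈ J₀, ↑K ⊆ S c)
    (h2 : ∀ G : Finset J, i ∉ G → ∀ K : Finset Γ, ∃ γ ∈ S i, γ ∉ K ∧ ∀ j ∈ G, γ ∉ S j)
    (T : kerSpace F →L[𝕜] kerSpace F)
    (hT : ∀ x : kerSpace F, (∀ j ∉ J₀, (x : lp (fun _ : J => E) 1) j = 0) → T x = x)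
    (hTi : ∀ x, (T x : lp (fun _ : J => E) 1) i = 0) : False := by
  classical
  -- choose small indices
  have hch : ∀ γ, ∃ c, γ ∈ S i → (c ∈ J₀ ∧ γ ∈ S c) := by
    intro γ
    by_cases h : γ ∈ S i
    · obtain ⟨c, hc, hc'⟩ := h1 {γ} (by simpa using h)
      exact ⟨c, fun _ => ⟨hc, by simpa using hc'⟩⟩
    · exact ⟨i, fun h' => absurd h' h⟩
  choose c hc using hch
  -- the vectors in the kernel space
  let xv : J → E → kerSpace F := fun d v =>
    if h : (lp.single (E := fun _ : J => E) 1 i v - lp.single (E := fun _ : J => E) 1 d v ∈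
      kerSpace F) then ⟨_, h⟩ else 0
  have hxv : ∀ d v, v ∈ F i → v ∈ F d → ((xv d v : kerSpace F) : lp (fun _ : J => E) 1) =
      lp.single (E := fun _ : J => E) 1 i v - lp.single (E := fun _ : J => E) 1 d v := by
    intro d v h h'
    have := pre_mem (F := F) h h'
    simp only [xv, this, dif_pos]
  let s : Γ → lp (fun _ : J => E) 1 := fun γ =>
    (T (xv (c γ) (r γ)) : lp (fun _ : J => E) 1) + lp.single (E := fun _ : J => E) 1 (c γ) (r γ)
  -- independence of the choice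
  have hindep : ∀ γ ∈ S i, ∀ d ∈ J₀, γ ∈ S d →
      s γ = (T (xv d (r γ)) : lp (fun _ : J => E) 1) + lp.single (E := fun _ : J => E) 1 d (r γ) := by
    intro γ hγ d hd hγd
    obtain ⟨hcJ, hcS⟩ := hc γ hγ
    have hx1 := hxv (c γ) (r γ) (hrF i γ hγ) (hrF _ γ hcS)
    have hx2 := hxv d (r γ) (hrF i γ hγ) (hrF _ γ hγd)
    have hfix : T (xv (c γ) (r γ) - xv d (r γ)) = xv (c γ) (r γ) - xv d (r γ) := by
      apply hT
      intro j hj
      have hjc : j ≠ c γ := fun h => hj (h ▸ hcJ)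
      have hjd : j ≠ d := fun h => hj (h ▸ hd)
      rw [Submodule.coe_sub, hx1, hx2]
      simp only [lp.coeFn_sub, Pi.sub_apply, lp.single_apply]
      simp [Pi.single_eq_of_ne hjc, Pi.single_eq_of_ne hjd]
    rw [map_sub] at hfix
    have hfix' := congrArg (fun z : kerSpace F => (z : lp (fun _ : J => E) 1)) hfix
    simp only [Submodule.coe_sub] at hfix'
    rw [hx1, hx2] at hfix'
    have : s γ - ((T (xv d (r γ)) : lp (fun _ : J => E) 1) +
        lp.single (E := fun _ : J => E) 1 d (r γ)) = 0 := by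
      have e : s γ - ((T (xv d (r γ)) : lp (fun _ : J => E) 1) +
        lp.single (E := fun _ : J => E) 1 d (r γ)) =
        ((T (xv (c γ) (r γ)) : lp (fun _ : J => E) 1) - (T (xv d (r γ)) : lp (fun _ : J => E) 1))
        + (lp.single (E := fun _ : J => E) 1 (c γ) (r γ) -
          lp.single (E := fun _ : J => E) 1 d (r γ)) := by
        simp only [s]; abel
      rw [e, hfix']
      abel
    exact sub_eq_zero.1 this
  have hmemF : ∀ γ ∈ S i, ∀ j, s γ j ∈ F j := by
    intro γ hγ j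
    obtain ⟨hcJ, hcS⟩ := hc γ hγ
    simp only [s, lp.coeFn_add, Pi.add_apply]
    apply Submodule.add_mem
    · exact (mem_kerSpace.1 (T (xv (c γ) (r γ))).2).2 j
    · by_cases h : j = c γ
      · subst h
        simpa using hrF _ γ hcS
      · simp [Pi.single_eq_of_ne h]
  refine comb_false S (S i) i φ hφ s ?_ ?_ ?_ h2 ((2 * ‖T‖ + 1) ^ 2 * B) ?_
  · intro γ hγ
    have hs : HasSum (fun j => s γ j) (r γ) := by
      have h1' := hasSum_coe (T (xv (c γ) (r γ)) : lp (fun _ : J => E) 1)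
      rw [(mem_kerSpace.1 (T (xv (c γ) (r γ))).2).1] at h1'
      have h2' := hasSum_coe (lp.single (E := fun _ : J => E) 1 (c γ) (r γ))
      rw [tsum_single] at h2'
      have := h1'.add h2'
      rw [zero_add] at this
      exact this
    have := hs.mapL (φ γ)
    rwa [hφr] at this
  · intro γ hγ j hj
    exact hφF j γ hj _ (hmemF γ hγ j)
  · intro γ hγ
    obtain ⟨hcJ, hcS⟩ := hc γ hγ
    have hic : i ≠ c γ := fun h => hi (h ▸ hcJ)
    simp only [s, lp.coeFn_add, Pi.add_apply, hTi, lp.single_apply]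
    simp [Pi.single_eq_of_ne hic]
  · intro K hK θ hθ
    obtain ⟨d, hd, hKd⟩ := h1 K hK
    set v : E := ∑ γ ∈ K, (θ γ : 𝕜) • r γ with hv
    have hvi : v ∈ F i := Submodule.sum_mem _ fun γ hγ =>
      Submodule.smul_mem _ _ (hrF i γ (hK hγ))
    have hvd : v ∈ F d := Submodule.sum_mem _ fun γ hγ =>
      Submodule.smul_mem _ _ (hrF d γ (hKd hγ))
    have hxsum : xv d v = ∑ γ ∈ K, (θ γ : 𝕜) • xv d (r γ) := by
      apply Subtype.ext
      rw [hxv d v hvi hvd]
      push_cast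
      have : ∀ γ ∈ K, (θ γ : 𝕜) • ((xv d (r γ) : kerSpace F) : lp (fun _ : J => E) 1) =
          (θ γ : 𝕜) • (lp.single (E := fun _ : J => E) 1 i (r γ) -
            lp.single (E := fun _ : J => E) 1 d (r γ)) := by
        intro γ hγ
        rw [hxv d (r γ) (hrF i γ (hK hγ)) (hrF d γ (hKd hγ))]
      rw [Finset.sum_congr rfl this]
      simp only [smul_sub, Finset.sum_sub_distrib, hv]
      congr 1
      · change lp.singleContinuousLinearMap 𝕜 (fun _ : J => E) 1 i _ = _
        rw [map_sum]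
        simp only [map_smul]
        rfl
      · change lp.singleContinuousLinearMap 𝕜 (fun _ : J => E) 1 d _ = _
        rw [map_sum]
        simp only [map_smul]
        rfl
    have hsum : (∑ γ ∈ K, (θ γ : 𝕜) • s γ : lp (fun _ : J => E) 1) =
        (T (xv d v) : lp (fun _ : J => E) 1) + lp.single (E := fun _ : J => E) 1 d v := by
      have : ∀ γ ∈ K, (θ γ : 𝕜) • s γ = (θ γ : 𝕜) • ((T (xv d (r γ)) : lp (fun _ : J => E) 1) +
          lp.single (E := fun _ : J => E) 1 d (r γ)) := by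
        intro γ hγ
        rw [hindep γ (hK hγ) d hd (hKd hγ)]
      rw [Finset.sum_congr rfl this, hxsum, map_sum]
      simp only [smul_add, Finset.sum_add_distrib, map_smul]
      congr 1
      · push_cast; rfl
      · change _ = lp.singleContinuousLinearMap 𝕜 (fun _ : J => E) 1 d _
        rw [hv, map_sum]
        simp only [map_smul]
        rfl
    have hnorm : ‖(∑ γ ∈ K, (θ γ : 𝕜) • s γ : lp (fun _ : J => E) 1)‖ ≤ (2 * ‖T‖ + 1) * ‖v‖ := by
      rw [hsum]
      have hn1 : ‖(T (xv d v) : lp (fun _ : J => E) 1)‖ ≤ ‖T‖ * (2 * ‖v‖) := by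
        calc ‖(T (xv d v) : lp (fun _ : J => E) 1)‖ = ‖T (xv d v)‖ := rfl
          _ ≤ ‖T‖ * ‖xv d v‖ := T.le_opNorm _
          _ ≤ ‖T‖ * (2 * ‖v‖) := by
            gcongr
            have : ‖xv d v‖ = ‖((xv d v : kerSpace F) : lp (fun _ : J => E) 1)‖ := rfl
            rw [this, hxv d v hvi hvd]
            calc _ ≤ ‖lp.single (E := fun _ : J => E) 1 i v‖ + ‖lp.single (E := fun _ : J => E) 1 d v‖ :=
                  norm_sub_le _ _
              _ = 2 * ‖v‖ := by
                rw [lp.norm_single (by simp), lp.norm_single (by simp)]; ring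
      have hn2 : ‖lp.single (E := fun _ : J => E) 1 d v‖ = ‖v‖ := lp.norm_single (by simp) _ _
      calc _ ≤ ‖(T (xv d v) : lp (fun _ : J => E) 1)‖ + ‖lp.single (E := fun _ : J => E) 1 d v‖ :=
            norm_add_le _ _
        _ ≤ ‖T‖ * (2 * ‖v‖) + ‖v‖ := by rw [hn2]; gcongr
        _ = (2 * ‖T‖ + 1) * ‖v‖ := by ring
    have hv2 := hB K θ hθ
    rw [← hv] at hv2
    calc ‖(∑ γ ∈ K, (θ γ : 𝕜) • s γ : lp (fun _ : J => E) 1)‖ ^ 2
        ≤ ((2 * ‖T‖ + 1) * ‖v‖) ^ 2 := by gcongr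
      _ = (2 * ‖T‖ + 1) ^ 2 * ‖v‖ ^ 2 := by ring
      _ ≤ (2 * ‖T‖ + 1) ^ 2 * (B * K.card) := by gcongr
      _ = (2 * ‖T‖ + 1) ^ 2 * B * K.card := by ring

end Ker

section LpMap

variable {𝕜 : Type*} [NontriviallyNormedField 𝕜] {α : Type*} {E F : α → Type*}
  [∀ i, NormedAddCommGroup (E i)] [∀ i, NormedSpace 𝕜 (E i)]
  [∀ i, NormedAddCommGroup (F i)] [∀ i, NormedSpace 𝕜 (F i)]

/-- The coordinatewise action of a family of contractions on an `lp` space. -/
noncomputable def lpMap (p : ℝ≥0∞) [Fact (1 ≤ p)] (T : ∀ i, E i →ₗ[𝕜] F i)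
    (hT : ∀ i x, ‖T i x‖ ≤ ‖x‖) : lp E p →L[𝕜] lp F p :=
  LinearMap.mkContinuous
    { toFun := fun f => ⟨fun i => T i (f i), (lp.memℓp f).mono' fun i => hT i _⟩
      map_add' := fun f g => by
        ext i
        exact map_add (T i) (f i) (g i)
      map_smul' := fun c f => by
        ext i
        exact map_smul (T i) c (f i) }
    1 (fun f => by
      have hp : p ≠ 0 := (zero_lt_one.trans_le Fact.out).ne'
      rw [one_mul]
      exact lp.norm_mono hp fun i => hT i _)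

@[simp] theorem lpMap_apply (p : ℝ≥0∞) [Fact (1 ≤ p)] (T : ∀ i, E i →ₗ[𝕜] F i)
    (hT : ∀ i x, ‖T i x‖ ≤ ‖x‖) (f : lp E p) (i : α) : lpMap p T hT f i = T i (f i) := rfl

theorem norm_lpMap_apply_le (p : ℝ≥0∞) [Fact (1 ≤ p)] (T : ∀ i, E i →ₗ[𝕜] F i)
    (hT : ∀ i x, ‖T i x‖ ≤ ‖x‖) (f : lp E p) : ‖lpMap p T hT f‖ ≤ ‖f‖ := by
  have hp : p ≠ 0 := (zero_lt_one.trans_le Fact.out).ne'
  exact lp.norm_mono hp fun i => hT i _

/-- Restriction of families to a set of indices. -/
noncomputable def lpCut (𝕜 : Type*) [NontriviallyNormedField 𝕜] {α : Type*} {E : α → Type*}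
    [∀ i, NormedAddCommGroup (E i)] [∀ i, NormedSpace 𝕜 (E i)]
    (p : ℝ≥0∞) [Fact (1 ≤ p)] (A : Set α) [DecidablePred (· ∈ A)] :
    lp E p →L[𝕜] lp E p :=
  lpMap p (fun i => if i ∈ A then LinearMap.id else 0) (fun i x => by
    by_cases h : i ∈ A <;> simp [h])

theorem lpCut_apply (p : ℝ≥0∞) [Fact (1 ≤ p)] (A : Set α) [DecidablePred (· ∈ A)]
    (f : lp E p) (i : α) : lpCut 𝕜 p A f i = if i ∈ A then f i else 0 := by
  by_cases h : i ∈ A <;> simp [lpCut, h]

end LpMap

section Sep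

theorem isSeparable_of_image {X Y : Type*} [TopologicalSpace X] [TopologicalSpace Y]
    [PseudoMetrizableSpace Y] {f : X → Y} (hf : Topology.IsInducing f) {s : Set X}
    (hs : IsSeparable (f '' s)) : IsSeparable s := by
  have : SecondCountableTopology (f '' s) := hs.secondCountableTopology
  let g : s → f '' s := fun x => ⟨f x, Set.mem_image_of_mem f x.2⟩
  have hg : Topology.IsInducing g := by
    rw [Topology.isInducing_iff]
    have h1 : (instTopologicalSpaceSubtype : TopologicalSpace s) =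
        TopologicalSpace.induced (fun x : s => f x) inferInstance := by
      rw [show (fun x : s => f x) = f ∘ Subtype.val from rfl, ← induced_compose, ← hf.eq_induced]
      rfl
    rw [h1]
    change _ = TopologicalSpace.induced g (TopologicalSpace.induced Subtype.val _)
    rw [induced_compose]
    rfl
  have : SecondCountableTopology s := hg.secondCountableTopology
  exact IsSeparable.of_subtype s

end Sep

section Hil

variable (𝕜 : Type*) [RCLike 𝕜] {Γ J : Type*}

/-- The subspace of `ℓ²(Γ)` of the elements supported in `A`. -/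
noncomputable def Fsub (A : Set Γ) : Submodule 𝕜 (lp (fun _ : Γ => 𝕜) 2) where
  carrier := {f | ∀ γ ∉ A, f γ = 0}
  add_mem' := by
    intro f g hf hg γ hγ
    rw [lp.coeFn_add, Pi.add_apply, hf γ hγ, hg γ hγ, add_zero]
  zero_mem' := by
    intro γ _
    rfl
  smul_mem' := by
    intro c f hf γ hγ
    rw [lp.coeFn_smul, Pi.smul_apply, hf γ hγ, smul_zero]

variable {𝕜}

theorem mem_Fsub {A : Set Γ} {f : lp (fun _ : Γ => 𝕜) 2} :
    f ∈ Fsub 𝕜 A ↔ ∀ γ ∉ A, f γ = 0 := Iff.rfl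

theorem isClosed_Fsub (A : Set Γ) : IsClosed (Fsub 𝕜 A : Set (lp (fun _ : Γ => 𝕜) 2)) := by
  have : (Fsub 𝕜 A : Set (lp (fun _ : Γ => 𝕜) 2)) =
      ⋂ γ, ⋂ (_ : γ ∉ A), (lp.evalCLM 𝕜 (fun _ : Γ => 𝕜) 2 γ) ⁻¹' {0} := by
    ext f
    simp only [SetLike.mem_coe, mem_Fsub, Set.mem_iInter, Set.mem_preimage, Set.mem_singleton_iff]
    rfl
  rw [this]
  exact isClosed_iInter fun γ => isClosed_iInter fun _ =>
    isClosed_singleton.preimage (lp.evalCLM 𝕜 (fun _ : Γ => 𝕜) 2 γ).continuous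

theorem mem_of_hasSum {V : Type*} [NormedAddCommGroup V] [NormedSpace 𝕜 V] {ι : Type*}
    (N : Submodule 𝕜 V) (hN : IsClosed (N : Set V)) {f : ι → V} {a : V} (h : HasSum f a)
    (hf : ∀ i, f i ∈ N) : a ∈ N :=
  hN.mem_of_tendsto h (Filter.Eventually.of_forall fun s => Submodule.sum_mem N fun i _ => hf i)

theorem evalE_cont (j : J) (γ : Γ) :
    Continuous (fun x : lp (fun _ : J => lp (fun _ : Γ => 𝕜) 2) 1 => (x j : lp (fun _ : Γ => 𝕜) 2) γ) :=
  (lp.evalCLM 𝕜 (fun _ : Γ => 𝕜) 2 γ).continuous.comp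
    (lp.evalCLM 𝕜 (fun _ : J => lp (fun _ : Γ => 𝕜) 2) 1 j).continuous

theorem separable_box {J' : Set J} {Γ₀ : Set Γ} (hJ : J'.Countable) (hΓ : Γ₀.Countable) :
    IsSeparable {x : lp (fun _ : J => lp (fun _ : Γ => 𝕜) 2) 1 |
      (∀ j ∉ J', x j = 0) ∧ ∀ j, ∀ γ ∉ Γ₀, (x j : lp (fun _ : Γ => 𝕜) 2) γ = 0} := by
  classical
  let B : Set (lp (fun _ : J => lp (fun _ : Γ => 𝕜) 2) 1) :=
    (fun q : J × Γ => lp.single (E := fun _ : J => lp (fun _ : Γ => 𝕜) 2) 1 q.1
      (lp.single (E := fun _ : Γ => 𝕜) 2 q.2 (1 : 𝕜))) '' (J' ×ˢ Γ₀)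
  have hB : B.Countable := (hJ.prod hΓ).image _
  have hsep : IsSeparable ((Submodule.span 𝕜 B).topologicalClosure :
      Set (lp (fun _ : J => lp (fun _ : Γ => 𝕜) 2) 1)) := by
    rw [Submodule.topologicalClosure_coe]
    exact (hB.isSeparable.span (R := 𝕜)).closure
  refine hsep.mono ?_
  rintro x ⟨hx1, hx2⟩
  set N := (Submodule.span 𝕜 B).topologicalClosure with hNdef
  have hN : IsClosed (N : Set (lp (fun _ : J => lp (fun _ : Γ => 𝕜) 2) 1)) :=
    Submodule.isClosed_topologicalClosure _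
  refine mem_of_hasSum (𝕜 := 𝕜) N hN (lp.hasSum_single (p := 1) (by simp) x) ?_
  intro j
  by_cases hj : j ∈ J'
  · have h1 := (lp.hasSum_single (E := fun _ : Γ => 𝕜) (p := 2) (by simp) (x j)).mapL
      (lp.singleContinuousLinearMap 𝕜 (fun _ : J => lp (fun _ : Γ => 𝕜) 2) 1 j)
    refine mem_of_hasSum (𝕜 := 𝕜) N hN h1 ?_
    intro γ
    by_cases hγ : γ ∈ Γ₀
    · have : lp.single (E := fun _ : Γ => 𝕜) 2 γ ((x j : lp (fun _ : Γ => 𝕜) 2) γ) =
          ((x j : lp (fun _ : Γ => 𝕜) 2) γ) • lp.single (E := fun _ : Γ => 𝕜) 2 γ (1 : 𝕜) := by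
        rw [← lp.single_smul]; simp
      rw [this, map_smul]
      apply N.smul_mem
      apply (Submodule.span 𝕜 B).le_topologicalClosure
      apply Submodule.subset_span
      exact ⟨(j, γ), ⟨hj, hγ⟩, rfl⟩
    · rw [hx2 j γ hγ]
      simp
  · rw [hx1 j hj]
    simp

/-- The kernel space over `ℓ²(Γ)` has the separable complementation property (abstract form). -/
theorem scp_hil (S : J → Set Γ) (J₀ : Set J) (hc : ∀ c ∈ J₀, (S c).Countable)
    (hcof : ∀ D : Set Γ, D.Countable → ∃ c ∈ J₀, D ⊆ S c)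
    (Y : Submodule 𝕜 (kerSpace (fun j => Fsub 𝕜 (S j))))
    (hY : IsSeparable (Y : Set (kerSpace (fun j => Fsub 𝕜 (S j))))) :
    ∃ T : Submodule 𝕜 (kerSpace (fun j => Fsub 𝕜 (S j))), Y ≤ T ∧
      IsClosed (T : Set (kerSpace (fun j => Fsub 𝕜 (S j)))) ∧
      IsSeparable (T : Set (kerSpace (fun j => Fsub 𝕜 (S j)))) ∧
      ∃ P : kerSpace (fun j => Fsub 𝕜 (S j)) →L[𝕜] kerSpace (fun j => Fsub 𝕜 (S j)),
        (∀ x, P x ∈ T) ∧ ∀ x ∈ T, P x = x := by
  classical
  obtain ⟨D, hDY, hDc, hYD⟩ := hY.exists_countable_dense_subset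
  let JD : Set J := ⋃ x ∈ D, Function.support
    (fun j => (x : lp (fun _ : J => lp (fun _ : Γ => 𝕜) 2) 1) j)
  have hJD : JD.Countable := by
    apply hDc.biUnion
    intro x _
    exact (Memℓp.summable_of_one (lp.memℓp (x : lp (fun _ : J => lp (fun _ : Γ => 𝕜) 2) 1))).countable_support
  let ΓD : Set Γ := ⋃ x ∈ D, ⋃ j ∈ JD, Function.support
    (fun γ => ((x : lp (fun _ : J => lp (fun _ : Γ => 𝕜) 2) 1) j : lp (fun _ : Γ => 𝕜) 2) γ)
  have hΓD : ΓD.Countable := by
    apply hDc.biUnion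
    intro x _
    apply hJD.biUnion
    intro j _
    have h2 := (lp.memℓp ((x : lp (fun _ : J => lp (fun _ : Γ => 𝕜) 2) 1) j)).summable
      (p := 2) (by simp)
    refine h2.countable_support.mono ?_
    intro γ hγ
    simp only [Function.mem_support] at hγ ⊢
    simpa using hγ
  obtain ⟨c, hcJ, hDc'⟩ := hcof ΓD hΓD
  set Γ₀ : Set Γ := S c with hΓ₀
  have hΓ₀c : Γ₀.Countable := hc c hcJ
  set J' : Set J := JD ∪ {c} with hJ'
  have hJ'c : J'.Countable := hJD.union (Set.countable_singleton c)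
  have hcJ' : c ∈ J' := Or.inr rfl
  -- the separable subspace
  let T0 : Submodule 𝕜 (kerSpace (fun j => Fsub 𝕜 (S j))) :=
    { carrier := {x | (∀ j ∉ J', (x : lp (fun _ : J => lp (fun _ : Γ => 𝕜) 2) 1) j = 0) ∧
        ∀ j, ∀ γ ∉ Γ₀, ((x : lp (fun _ : J => lp (fun _ : Γ => 𝕜) 2) 1) j :
          lp (fun _ : Γ => 𝕜) 2) γ = 0}
      add_mem' := by
        rintro x y ⟨hx1, hx2⟩ ⟨hy1, hy2⟩
        refine ⟨fun j hj => ?_, fun j γ hγ => ?_⟩
        · rw [Submodule.coe_add, lp.coeFn_add, Pi.add_apply, hx1 j hj, hy1 j hj, add_zero]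
        · rw [Submodule.coe_add, lp.coeFn_add, Pi.add_apply, lp.coeFn_add, Pi.add_apply,
            hx2 j γ hγ, hy2 j γ hγ, add_zero]
      zero_mem' := ⟨fun j _ => rfl, fun j γ _ => rfl⟩
      smul_mem' := by
        rintro a x ⟨hx1, hx2⟩
        refine ⟨fun j hj => ?_, fun j γ hγ => ?_⟩
        · rw [Submodule.coe_smul, lp.coeFn_smul, Pi.smul_apply, hx1 j hj, smul_zero]
        · rw [Submodule.coe_smul, lp.coeFn_smul, Pi.smul_apply, lp.coeFn_smul, Pi.smul_apply,
            hx2 j γ hγ, smul_zero] }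
  have hT0 : ∀ x : kerSpace (fun j => Fsub 𝕜 (S j)), x ∈ T0 ↔
      ((∀ j ∉ J', (x : lp (fun _ : J => lp (fun _ : Γ => 𝕜) 2) 1) j = 0) ∧
        ∀ j, ∀ γ ∉ Γ₀, ((x : lp (fun _ : J => lp (fun _ : Γ => 𝕜) 2) 1) j :
          lp (fun _ : Γ => 𝕜) 2) γ = 0) := fun x => Iff.rfl
  have hT0closed : IsClosed (T0 : Set (kerSpace (fun j => Fsub 𝕜 (S j)))) := by
    have : (T0 : Set (kerSpace (fun j => Fsub 𝕜 (S j)))) =
        (⋂ j, ⋂ (_ : j ∉ J'), {x : kerSpace (fun j => Fsub 𝕜 (S j)) |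
          (x : lp (fun _ : J => lp (fun _ : Γ => 𝕜) 2) 1) j = 0}) ∩
        ⋂ j, ⋂ γ, ⋂ (_ : γ ∉ Γ₀), {x : kerSpace (fun j => Fsub 𝕜 (S j)) |
          ((x : lp (fun _ : J => lp (fun _ : Γ => 𝕜) 2) 1) j : lp (fun _ : Γ => 𝕜) 2) γ = 0} := by
      ext x
      simp only [SetLike.mem_coe, hT0, Set.mem_inter_iff, Set.mem_iInter, Set.mem_setOf_eq]
    rw [this]
    apply IsClosed.inter
    · refine isClosed_iInter fun j => isClosed_iInter fun _ => ?_
      exact isClosed_eq ((lp.evalCLM 𝕜 (fun _ : J => lp (fun _ : Γ => 𝕜) 2) 1 j).continuous.comp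
        continuous_subtype_val) continuous_const
    · refine isClosed_iInter fun j => isClosed_iInter fun γ => isClosed_iInter fun _ => ?_
      exact isClosed_eq ((evalE_cont j γ).comp continuous_subtype_val) continuous_const
  have hT0sep : IsSeparable (T0 : Set (kerSpace (fun j => Fsub 𝕜 (S j)))) := by
    apply isSeparable_of_image (f := Subtype.val) Topology.IsInducing.subtypeVal
    refine (separable_box (𝕜 := 𝕜) hJ'c hΓ₀c).mono ?_
    rintro _ ⟨x, hx, rfl⟩
    exact hx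
  have hYT : Y ≤ T0 := by
    intro y hy
    have h1 : (D : Set (kerSpace (fun j => Fsub 𝕜 (S j)))) ⊆ T0 := by
      intro x hx
      rw [SetLike.mem_coe, hT0]
      refine ⟨fun j hj => ?_, fun j γ hγ => ?_⟩
      · by_contra h
        exact hj (Or.inl (Set.mem_biUnion hx h))
      · by_contra h
        apply hγ
        apply hDc'
        have hj : j ∈ JD := by
          refine Set.mem_biUnion hx ?_
          intro h0
          apply h
          simp only at h0
          rw [h0]; rfl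
        exact Set.mem_biUnion hx (Set.mem_biUnion hj h)
    exact hT0closed.closure_subset_iff.2 h1 (hYD hy)
  -- the projection
  let R : lp (fun _ : Γ => 𝕜) 2 →L[𝕜] lp (fun _ : Γ => 𝕜) 2 := lpCut 𝕜 2 Γ₀
  have hRapp : ∀ f γ, R f γ = if γ ∈ Γ₀ then f γ else 0 := fun f γ => lpCut_apply (𝕜 := 𝕜) 2 Γ₀ f γ
  have hRnorm : ∀ x, ‖R x‖ ≤ ‖x‖ := fun x => norm_lpMap_apply_le (𝕜 := 𝕜) 2 _ _ x
  let Rh : lp (fun _ : J => lp (fun _ : Γ => 𝕜) 2) 1 →L[𝕜] lp (fun _ : J => lp (fun _ : Γ => 𝕜) 2) 1 :=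
    lpMap (𝕜 := 𝕜) 1 (fun _ => R.toLinearMap) (fun _ x => hRnorm x)
  have hRh : ∀ x j, Rh x j = R (x j) := fun x j => rfl
  let M : lp (fun _ : J => lp (fun _ : Γ => 𝕜) 2) 1 →L[𝕜] lp (fun _ : J => lp (fun _ : Γ => 𝕜) 2) 1 :=
    lpCut 𝕜 1 J'
  have hM : ∀ x j, M x j = if j ∈ J' then x j else 0 := fun x j => lpCut_apply (𝕜 := 𝕜) 1 J' x j
  let τ := lp.tsumCLM 𝕜 J (lp (fun _ : Γ => 𝕜) 2)
  have hτ : ∀ x, τ x = ∑' j, x j := fun x => rfl
  let q : lp (fun _ : J => lp (fun _ : Γ => 𝕜) 2) 1 →L[𝕜] lp (fun _ : J => lp (fun _ : Γ => 𝕜) 2) 1 :=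
    M.comp Rh + (lp.singleContinuousLinearMap 𝕜 (fun _ : J => lp (fun _ : Γ => 𝕜) 2) 1 c).comp
      (τ.comp (Rh - M.comp Rh))
  have hq : ∀ x, q x = M (Rh x) + lp.single (E := fun _ : J => lp (fun _ : Γ => 𝕜) 2) 1 c
      (τ (Rh x - M (Rh x))) := fun x => rfl
  have hτR : ∀ x, τ (Rh x) = R (τ x) := by
    intro x
    rw [hτ, hτ, ContinuousLinearMap.map_tsum R (Memℓp.summable_of_one (lp.memℓp x))]
    rfl
  have hτΓ : ∀ x, ∀ γ ∉ Γ₀, (τ (Rh x - M (Rh x)) : lp (fun _ : Γ => 𝕜) 2) γ = 0 := by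
    intro x γ hγ
    have h1 : (τ (Rh x - M (Rh x)) : lp (fun _ : Γ => 𝕜) 2) ∈ Fsub 𝕜 Γ₀ := by
      refine mem_of_hasSum (𝕜 := 𝕜) _ (isClosed_Fsub Γ₀) (hasSum_coe (Rh x - M (Rh x))) ?_
      intro j γ' hγ'
      rw [lp.coeFn_sub, Pi.sub_apply, hM, hRh]
      by_cases hj : j ∈ J'
      · simp [hj]
      · simp only [hj, if_false, sub_zero]
        rw [hRapp]; simp [hγ']
    exact h1 γ hγ
  have hqmem : ∀ x : kerSpace (fun j => Fsub 𝕜 (S j)),
      q (x : lp (fun _ : J => lp (fun _ : Γ => 𝕜) 2) 1) ∈ kerSpace (fun j => Fsub 𝕜 (S j)) := by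
    intro x
    obtain ⟨hx1, hx2⟩ := mem_kerSpace.1 x.2
    rw [mem_kerSpace]
    constructor
    · have e1 : τ (q x) = τ (M (Rh x)) + τ (lp.single (E := fun _ : J => lp (fun _ : Γ => 𝕜) 2) 1 c
          (τ (Rh x - M (Rh x)))) := map_add τ _ _
      have e2 : τ (lp.single (E := fun _ : J => lp (fun _ : Γ => 𝕜) 2) 1 c
          (τ (Rh x - M (Rh x)))) = τ (Rh x - M (Rh x)) := tsum_single (J := J) c _
      have e3 : τ (Rh x - M (Rh x)) = τ (Rh x) - τ (M (Rh x)) := map_sub τ _ _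
      have e4 : τ (x : lp (fun _ : J => lp (fun _ : Γ => 𝕜) 2) 1) = 0 := hx1
      have e5 : τ (Rh x) = 0 := by rw [hτR, e4, map_zero]
      change τ (q x) = 0
      rw [e1, e2, e3, e5]
      abel
    · intro j
      rw [hq, lp.coeFn_add, Pi.add_apply]
      apply Submodule.add_mem
      · intro γ hγ
        rw [hM]
        by_cases hj : j ∈ J'
        · simp only [hj, if_true]
          rw [hRh, hRapp, hx2 j γ hγ]; simp
        · simp [hj]
      · by_cases hj : j = c
        · subst hj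
          simp only [lp.single_apply, Pi.single_eq_same]
          exact hτΓ _
        · simp [Pi.single_eq_of_ne hj]
  let P : kerSpace (fun j => Fsub 𝕜 (S j)) →L[𝕜] kerSpace (fun j => Fsub 𝕜 (S j)) :=
    (q.comp (kerSpace (fun j => Fsub 𝕜 (S j))).subtypeL).codRestrict _ hqmem
  have hP : ∀ x, ((P x : kerSpace (fun j => Fsub 𝕜 (S j))) :
      lp (fun _ : J => lp (fun _ : Γ => 𝕜) 2) 1) = q x := fun x => rfl
  refine ⟨T0, hYT, hT0closed, hT0sep, P, ?_, ?_⟩
  · intro x
    rw [hT0]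
    refine ⟨fun j hj => ?_, fun j γ hγ => ?_⟩
    · have hjc : j ≠ c := fun h => hj (h ▸ hcJ')
      rw [hP, hq, lp.coeFn_add, Pi.add_apply, hM]
      simp [hj, Pi.single_eq_of_ne hjc]
    · rw [hP, hq, lp.coeFn_add, Pi.add_apply, lp.coeFn_add, Pi.add_apply, hM]
      have h1 : ((if j ∈ J' then Rh x j else 0 : lp (fun _ : Γ => 𝕜) 2)) γ = 0 := by
        by_cases hj : j ∈ J'
        · simp only [hj, if_true]
          rw [hRh, hRapp]; simp [hγ]
        · simp [hj]
      rw [h1, zero_add]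
      by_cases hj : j = c
      · subst hj
        simp only [lp.single_apply, Pi.single_eq_same]
        exact hτΓ _ γ hγ
      · simp [Pi.single_eq_of_ne hj]
  · intro x hx
    rw [hT0] at hx
    obtain ⟨hx1, hx2⟩ := hx
    apply Subtype.ext
    rw [hP, hq]
    have h1 : Rh (x : lp (fun _ : J => lp (fun _ : Γ => 𝕜) 2) 1) = x := by
      apply lp.ext
      funext j
      rw [hRh]
      apply lp.ext
      funext γ
      rw [hRapp]
      by_cases hγ : γ ∈ Γ₀
      · simp [hγ]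
      · simp [hγ, hx2 j γ hγ]
    have h2 : M (x : lp (fun _ : J => lp (fun _ : Γ => 𝕜) 2) 1) = x := by
      apply lp.ext
      funext j
      rw [hM]
      by_cases hj : j ∈ J'
      · simp [hj]
      · simp [hj, hx1 j hj]
    rw [h1, h2, sub_self, map_zero, lp.single_zero, add_zero]

end Hil

section SetTh

variable {G : Type} [LinearOrder G]

/-- The index sets: initial segments and graphs of restriction maps. -/
def idx (j : G ⊕ Set G) : Set (Finset G × Finset G) :=
  match j with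
  | Sum.inl a => {p | (∀ x ∈ p.1, x ≤ a) ∧ ∀ x ∈ p.2, x ≤ a}
  | Sum.inr s => {p | ∀ x, x ∈ p.2 ↔ x ∈ p.1 ∧ x ∈ s}

theorem mem_idx_inl {a : G} {p : Finset G × Finset G} :
    p ∈ idx (Sum.inl a) ↔ (∀ x ∈ p.1, x ≤ a) ∧ ∀ x ∈ p.2, x ≤ a := Iff.rfl

theorem mem_idx_inr {s : Set G} {p : Finset G × Finset G} :
    p ∈ idx (Sum.inr s) ↔ ∀ x, x ∈ p.2 ↔ x ∈ p.1 ∧ x ∈ s := Iff.rfl

variable (hG : ∀ a : G, (Iic a).Countable) [Uncountable G]
include hG

theorem exists_strict_bound {D : Set G} (hD : D.Countable) : ∃ b, ∀ x ∈ D, x < b := by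
  by_contra h
  push Not at h
  have h1 : (univ : Set G) ⊆ ⋃ x ∈ D, Iic x := by
    intro b _
    obtain ⟨x, hx, hbx⟩ := h b
    exact mem_biUnion hx hbx
  have h2 : (univ : Set G).Countable := (hD.biUnion fun x _ => hG x).mono h1
  exact not_countable (α := G) (countable_univ_iff.1 h2)

theorem countable_finset_le (a : G) : {F : Finset G | ∀ x ∈ F, x ≤ a}.Countable := by
  have h1 : {t : Set G | t.Finite ∧ t ⊆ Iic a}.Countable :=
    Set.countable_ofPred_finite_subset (hG a)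
  have h2 : MapsTo (fun F : Finset G => (F : Set G)) {F : Finset G | ∀ x ∈ F, x ≤ a}
      {t : Set G | t.Finite ∧ t ⊆ Iic a} := by
    intro F hF
    exact ⟨F.finite_toSet, fun x hx => hF x hx⟩
  exact h2.countable_of_injOn (Finset.coe_injective.injOn) h1

theorem countable_idx_inl (a : G) : (idx (Sum.inl a : G ⊕ Set G)).Countable := by
  have h := countable_finset_le hG a
  refine (h.prod h).mono ?_
  rintro p ⟨h1, h2⟩
  exact ⟨h1, h2⟩

theorem cofinal_idx {D : Set (Finset G × Finset G)} (hD : D.Countable) :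
    ∃ a : G, D ⊆ idx (Sum.inl a) := by
  have h1 : (⋃ p ∈ D, ((p.1 : Set G) ∪ (p.2 : Set G))).Countable :=
    hD.biUnion fun p _ => (p.1.countable_toSet).union p.2.countable_toSet
  obtain ⟨b, hb⟩ := exists_strict_bound hG h1
  refine ⟨b, fun p hp => ⟨fun x hx => ?_, fun x hx => ?_⟩⟩
  · exact (hb x (mem_biUnion hp (Or.inl hx))).le
  · exact (hb x (mem_biUnion hp (Or.inr hx))).le

theorem free_idx (s : Set G) (F : Finset (G ⊕ Set G)) (hs : Sum.inr s ∉ F)
    (K : Finset (Finset G × Finset G)) :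
    ∃ γ ∈ idx (Sum.inr s), γ ∉ K ∧ ∀ j ∈ F, γ ∉ idx j := by
  classical
  -- bound for everything
  have hc : ((⋃ p ∈ (K : Set (Finset G × Finset G)), (p.1 : Set G)) ∪
      {a : G | Sum.inl a ∈ F}).Countable := by
    apply Countable.union
    · exact (K.countable_toSet).biUnion fun p _ => p.1.countable_toSet
    · have : {a : G | Sum.inl a ∈ F} = Sum.inl ⁻¹' (F : Set (G ⊕ Set G)) := rfl
      rw [this]
      exact (F.countable_toSet).preimage Sum.inl_injective
  obtain ⟨b, hb⟩ := exists_strict_bound hG hc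
  -- distinguishing points
  have hy : ∀ t : Set G, ∃ y : G, t ≠ s → ¬ (y ∈ t ↔ y ∈ s) := by
    intro t
    by_cases h : t = s
    · exact ⟨b, fun h' => absurd h h'⟩
    · have : ∃ y, ¬ (y ∈ t ↔ y ∈ s) := by
        by_contra hcon
        push Not at hcon
        exact h (Set.ext hcon)
      obtain ⟨y, hy⟩ := this
      exact ⟨y, fun _ => hy⟩
  choose y hy using hy
  let H : Finset G := insert b (F.image fun j => match j with
    | Sum.inl _ => b
    | Sum.inr t => y t)
  refine ⟨(H, H.filter (· ∈ s)), ?_, ?_, ?_⟩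
  · rw [mem_idx_inr]
    intro x
    simp
  · intro hK
    have hbH : b ∈ H := Finset.mem_insert_self _ _
    have : b < b := hb b (Or.inl (mem_biUnion (Finset.mem_coe.2 hK) hbH))
    exact lt_irrefl _ this
  · intro j hj hmem
    rcases j with a | t
    · have hbH : b ∈ H := Finset.mem_insert_self _ _
      have h1 : b ≤ a := hmem.1 b hbH
      have h2 : a < b := hb a (Or.inr hj)
      exact absurd h1 (not_le.2 h2)
    · have hts : t ≠ s := fun h => hs (h ▸ hj)
      have hyH : y t ∈ H := by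
        apply Finset.mem_insert_of_mem
        exact Finset.mem_image.2 ⟨Sum.inr t, hj, rfl⟩
      have h1 := (mem_idx_inr.1 hmem) (y t)
      simp only [Finset.mem_filter, hyH, true_and] at h1
      exact hy t hts h1.symm

end SetTh

/-- There is an uncountable linear order of cardinality `ℵ₁` with countable initial segments. -/
theorem exists_omega_one : ∃ (G : Type) (_ : LinearOrder G), (∀ a : G, (Iic a).Countable) ∧
    Uncountable G ∧ #G = ℵ_ 1 := by
  refine ⟨(ℵ_ 1).ord.ToType, inferInstance, ?_, ?_, mk_ord_toType _⟩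
  · intro a
    have h1 : (Iio a).Countable := by
      rw [Cardinal.countable_iff_lt_aleph_one]
      have := Cardinal.mk_Iio_lt a (by simp)
      simpa using this
    have : Iic a = insert a (Iio a) := by
      ext x
      simp [le_iff_eq_or_lt]
    rw [this]
    exact h1.insert a
  · rw [← Cardinal.aleph1_le_mk_iff, mk_ord_toType]

/-- Density of subsets passes along isometries, up to `ℵ₀`. -/
theorem exists_dense_of_isometry {A B : Type} [PseudoMetricSpace A] [PseudoMetricSpace B]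
    (f : A → B) (hf : Isometry f) (D : Set B) (hD : ∀ a, f a ∈ closure D) (κ : Cardinal)
    (hκ : ℵ₀ ≤ κ) (hDκ : #D ≤ κ) : ∃ D' : Set A, Dense D' ∧ #D' ≤ κ := by
  classical
  rcases isEmpty_or_nonempty A with hA | hA
  · refine ⟨∅, ?_, ?_⟩
    · intro x; exact (hA.false x).elim
    · simp
  let w : D × ℕ → A := fun p =>
    if h : ∃ a, dist (f a) p.1 < 1 / ((p.2 : ℝ) + 1) then h.choose else hA.some
  refine ⟨range w, ?_, ?_⟩
  · intro x
    rw [Metric.mem_closure_iff]
    intro ε hε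
    obtain ⟨n, hn⟩ := exists_nat_one_div_lt (half_pos hε)
    have hn0 : (0 : ℝ) < 1 / ((n : ℝ) + 1) := by positivity
    obtain ⟨d, hd, hxd⟩ := Metric.mem_closure_iff.1 (hD x) _ hn0
    have hex : ∃ a, dist (f a) ((⟨d, hd⟩, n) : D × ℕ).1 < 1 / ((((⟨d, hd⟩, n) : D × ℕ).2 : ℝ) + 1) :=
      ⟨x, hxd⟩
    refine ⟨w (⟨d, hd⟩, n), mem_range_self _, ?_⟩
    have hw : w (⟨d, hd⟩, n) = hex.choose := by
      simp only [w]
      rw [dif_pos hex]
    have h2 := hex.choose_spec
    rw [← hw] at h2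
    simp only at h2
    rw [← hf.dist_eq]
    calc dist (f x) (f (w (⟨d, hd⟩, n))) ≤ dist (f x) d + dist d (f (w (⟨d, hd⟩, n))) :=
          dist_triangle _ _ _
      _ = dist (f x) d + dist (f (w (⟨d, hd⟩, n))) d := by rw [dist_comm d]
      _ < ε := by linarith
  · calc #(range w) ≤ #(D × ℕ) := mk_range_le
      _ = #D * ℵ₀ := by simp
      _ ≤ κ * κ := mul_le_mul' hDκ hκ
      _ = κ := mul_eq_self hκ

/-- The closed linear span of a family of vectors has a dense subset of size at most that of the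
family. -/
theorem exists_small_dense_span {𝕜 : Type} [RCLike 𝕜] {V : Type} [NormedAddCommGroup V]
    [NormedSpace 𝕜 V] (B : Set V) (κ : Cardinal) (hκ : ℵ₀ ≤ κ) (hB : #B ≤ κ) :
    ∃ D : Set V, #D ≤ κ ∧ ((Submodule.span 𝕜 B).topologicalClosure : Set V) ⊆ closure D := by
  classical
  obtain ⟨Q, hQc, hQd⟩ := TopologicalSpace.exists_countable_dense 𝕜
  let g : List (Q × B) → V := fun l => (l.map fun p => (p.1 : 𝕜) • (p.2 : V)).sum
  refine ⟨range g, ?_, ?_⟩
  · calc #(range g) ≤ #(List (Q × B)) := mk_range_le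
      _ ≤ max ℵ₀ #(Q × B) := mk_list_le_max _
      _ ≤ κ := by
        apply max_le hκ
        rw [Cardinal.mk_prod, lift_id, lift_id]
        have hQ : #Q ≤ κ := (Cardinal.le_aleph0_iff_set_countable.2 hQc).trans hκ
        calc #Q * #B ≤ κ * κ := mul_le_mul' hQ hB
          _ = κ := mul_eq_self hκ
  · have hadd : ∀ x ∈ closure (range g), ∀ y ∈ closure (range g), x + y ∈ closure (range g) := by
      intro x hx y hy
      refine map_mem_closure₂ (f := fun x y : V => x + y) continuous_add hx hy ?_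
      rintro _ ⟨l, rfl⟩ _ ⟨l', rfl⟩
      exact ⟨l ++ l', by simp [g]⟩
    have hzero : (0 : V) ∈ closure (range g) := subset_closure ⟨[], by simp [g]⟩
    have hsm : ∀ a : 𝕜, ∀ b ∈ B, a • b ∈ closure (range g) := by
      intro a b hb
      have h1 : a ∈ closure Q := hQd a
      refine map_mem_closure (f := fun a : 𝕜 => a • b) (by fun_prop) h1 ?_
      intro q hq
      exact ⟨[(⟨q, hq⟩, ⟨b, hb⟩)], by simp [g]⟩
    rw [Submodule.topologicalClosure_coe]
    apply closure_minimal _ isClosed_closure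
    intro x hx
    rw [SetLike.mem_coe, Submodule.mem_span_set'] at hx
    obtain ⟨n, f, v, rfl⟩ := hx
    have : ∀ s : Finset (Fin n), ∑ i ∈ s, f i • (v i : V) ∈ closure (range g) := by
      intro s
      induction s using Finset.induction_on with
      | empty => simpa using hzero
      | insert a s ha ih =>
        rw [Finset.sum_insert ha]
        exact hadd _ (hsm _ _ (v a).2) _ ih
    exact this _

theorem dens_spec (Y : Type) [TopologicalSpace Y] : ∃ D : Set Y, Dense D ∧ #D = dens Y :=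
  csInf_mem (s := {κ : Cardinal.{0} | ∃ D : Set Y, Dense D ∧ #D = κ})
    ⟨#(univ : Set Y), univ, dense_univ, rfl⟩

theorem dens_le {Y : Type} [TopologicalSpace Y] {D : Set Y} (hD : Dense D) : dens Y ≤ #D :=
  csInf_le' ⟨D, hD, rfl⟩

/-- There is a Banach space (real or complex) with the separable complementation property and a
closed subspace `W` of density `ℵ₁` which is contained in no complemented subspace of density
`ℵ₁`. -/
theorem result (𝕜 : Type) [RCLike 𝕜] :
    ∃ (X : Type) (_ : NormedAddCommGroup X) (_ : NormedSpace 𝕜 X),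
      CompleteSpace X ∧ HasSCP 𝕜 X ∧
        ∃ W : Submodule 𝕜 X, IsClosed (W : Set X) ∧ dens W = ℵ_ 1 ∧
          ¬ ∃ V : Submodule 𝕜 X, IsClosed (V : Set X) ∧ W ≤ V ∧ IsComplemented 𝕜 V ∧
            dens V = ℵ_ 1 := by
  classical
  obtain ⟨G, instG, hG, hunc, hcard⟩ := exists_omega_one
  have hGinf : Infinite G := inferInstance
  let J : Type := G ⊕ Set G
  let Γ : Type := Finset G × Finset G
  let S : J → Set Γ := idx
  let E : Type := lp (fun _ : Γ => 𝕜) 2
  let F : J → Submodule 𝕜 (lp (fun _ : Γ => 𝕜) 2) := fun j => Fsub 𝕜 (S j)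
  let X := kerSpace (𝕜 := 𝕜) F
  have hXcl : IsClosed (kerSpace (𝕜 := 𝕜) F : Set (lp (fun _ : J => lp (fun _ : Γ => 𝕜) 2) 1)) :=
    isClosed_kerSpace fun j => isClosed_Fsub (S j)
  have hXc : CompleteSpace (kerSpace (𝕜 := 𝕜) F) := hXcl.completeSpace_coe
  let J₀ : Set J := range Sum.inl
  -- the small subspace
  let W : Submodule 𝕜 (kerSpace (𝕜 := 𝕜) F) :=
    { carrier := {x | ∀ j ∉ J₀, (x : lp (fun _ : J => lp (fun _ : Γ => 𝕜) 2) 1) j = 0}
      add_mem' := by
        intro x y hx hy j hj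
        rw [Submodule.coe_add, lp.coeFn_add, Pi.add_apply, hx j hj, hy j hj, add_zero]
      zero_mem' := fun j _ => rfl
      smul_mem' := by
        intro a x hx j hj
        rw [Submodule.coe_smul, lp.coeFn_smul, Pi.smul_apply, hx j hj, smul_zero] }
  have hW : ∀ x : kerSpace (𝕜 := 𝕜) F, x ∈ W ↔
      ∀ j ∉ J₀, (x : lp (fun _ : J => lp (fun _ : Γ => 𝕜) 2) 1) j = 0 := fun x => Iff.rfl
  have hWcl : IsClosed (W : Set (kerSpace (𝕜 := 𝕜) F)) := by
    have : (W : Set (kerSpace (𝕜 := 𝕜) F)) =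
        ⋂ j, ⋂ (_ : j ∉ J₀), {x : kerSpace (𝕜 := 𝕜) F |
          (x : lp (fun _ : J => lp (fun _ : Γ => 𝕜) 2) 1) j = 0} := by
      ext x
      simp only [SetLike.mem_coe, hW, Set.mem_iInter, Set.mem_ofPred_eq]
    rw [this]
    refine isClosed_iInter fun j => isClosed_iInter fun _ => ?_
    exact isClosed_eq ((lp.evalCLM 𝕜 (fun _ : J => lp (fun _ : Γ => 𝕜) 2) 1 j).continuous.comp
      continuous_subtype_val) continuous_const
  have hG1 : ℵ₀ ≤ (ℵ_ 1 : Cardinal.{0}) := aleph0_le_aleph 1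
  refine ⟨kerSpace (𝕜 := 𝕜) F, inferInstance, inferInstance, hXc, ?_, W, hWcl, ?_, ?_⟩
  · -- SCP
    intro Y _ hYsep
    obtain ⟨T, hYT, hTc, hTs, P, hP1, hP2⟩ := scp_hil (𝕜 := 𝕜) S J₀
      (by rintro _ ⟨a, rfl⟩; exact countable_idx_inl hG a)
      (by
        intro D hD
        obtain ⟨a, ha⟩ := cofinal_idx hG hD
        exact ⟨Sum.inl a, mem_range_self a, ha⟩) Y hYsep
    refine ⟨T, hYT, hTc, hTs, P, fun x => hP2 _ (hP1 x), ?_⟩
    ext x
    constructor
    · rintro ⟨y, rfl⟩; exact hP1 y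
    · intro hx; exact ⟨x, hP2 x hx⟩
  · -- density of W
    apply le_antisymm
    · -- upper bound
      let B : Set (lp (fun _ : J => lp (fun _ : Γ => 𝕜) 2) 1) :=
        range (fun q : G × Γ => lp.single (E := fun _ : J => lp (fun _ : Γ => 𝕜) 2) 1 (Sum.inl q.1)
          (lp.single (E := fun _ : Γ => 𝕜) 2 q.2 (1 : 𝕜)))
      have hΓ : #Γ = ℵ_ 1 := by
        change #(Finset G × Finset G) = _
        rw [Cardinal.mk_prod, lift_id, mk_finset_of_infinite, hcard, mul_eq_self hG1]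
      have hB : #B ≤ ℵ_ 1 := by
        calc #B ≤ #(G × Γ) := mk_range_le
          _ = ℵ_ 1 := by rw [Cardinal.mk_prod, lift_id, lift_id, hΓ, hcard, mul_eq_self hG1]
      obtain ⟨D, hDκ, hD⟩ := exists_small_dense_span (𝕜 := 𝕜) B (ℵ_ 1) hG1 hB
      suffices hmemD : ∀ w : W, (((w : kerSpace (𝕜 := 𝕜) F)) :
          lp (fun _ : J => lp (fun _ : Γ => 𝕜) 2) 1) ∈ closure D by
        obtain ⟨D', hD', hD'κ⟩ := exists_dense_of_isometry
          (fun w : W => (((w : kerSpace (𝕜 := 𝕜) F)) : lp (fun _ : J => lp (fun _ : Γ => 𝕜) 2) 1))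
          (isometry_subtype_coe.comp isometry_subtype_coe) D hmemD (ℵ_ 1) hG1 hDκ
        exact (dens_le hD').trans hD'κ
      · intro w
        apply hD
        set N := (Submodule.span 𝕜 B).topologicalClosure with hNdef
        have hN : IsClosed (N : Set (lp (fun _ : J => lp (fun _ : Γ => 𝕜) 2) 1)) :=
          Submodule.isClosed_topologicalClosure _
        refine mem_of_hasSum (𝕜 := 𝕜) N hN (lp.hasSum_single (p := 1) (by simp)
          ((w : kerSpace (𝕜 := 𝕜) F) : lp (fun _ : J => lp (fun _ : Γ => 𝕜) 2) 1)) ?_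
        intro j
        by_cases hj : j ∈ J₀
        · obtain ⟨a, rfl⟩ := hj
          have h1 := (lp.hasSum_single (E := fun _ : Γ => 𝕜) (p := 2) (by simp)
            (((w : kerSpace (𝕜 := 𝕜) F) : lp (fun _ : J => lp (fun _ : Γ => 𝕜) 2) 1)
              (Sum.inl a))).mapL
            (lp.singleContinuousLinearMap 𝕜 (fun _ : J => lp (fun _ : Γ => 𝕜) 2) 1 (Sum.inl a))
          refine mem_of_hasSum (𝕜 := 𝕜) N hN h1 ?_
          intro γ
          have : ∀ t : 𝕜, lp.single (E := fun _ : Γ => 𝕜) 2 γ t =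
              t • lp.single (E := fun _ : Γ => 𝕜) 2 γ (1 : 𝕜) := by
            intro t
            rw [← lp.single_smul]; simp
          rw [this, map_smul]
          apply N.smul_mem
          apply (Submodule.span 𝕜 B).le_topologicalClosure
          apply Submodule.subset_span
          exact ⟨(a, γ), rfl⟩
        · rw [w.2 j hj]
          simp
    · -- lower bound
      obtain ⟨D, hD, hDeq⟩ := dens_spec W
      rw [← hDeq, ← hcard]
      -- the separated family
      have hex : ∀ a : G, ∃ b : G, a < b := by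
        intro a
        obtain ⟨b, hb⟩ := exists_strict_bound hG (countable_singleton a)
        exact ⟨b, hb a rfl⟩
      choose nx hnx using hex
      let γ : G → Γ := fun a => ({a}, ∅)
      have hγinj : ∀ a b, a ≠ b → γ a ≠ γ b := by
        intro a b hab h
        apply hab
        have := congrArg Prod.fst h
        simpa [γ] using this
      have hγ1 : ∀ a, γ a ∈ S (Sum.inl a) := by
        intro a
        refine ⟨fun x hx => ?_, fun x hx => ?_⟩
        · simp only [γ, Finset.mem_singleton] at hx; exact hx.le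
        · simp [γ] at hx
      have hγ2 : ∀ a, γ a ∈ S (Sum.inl (nx a)) := by
        intro a
        refine ⟨fun x hx => ?_, fun x hx => ?_⟩
        · simp only [γ, Finset.mem_singleton] at hx; rw [hx]; exact (hnx a).le
        · simp [γ] at hx
      have hmemF : ∀ (j : J) (g : Γ), g ∈ S j → lp.single (E := fun _ : Γ => 𝕜) 2 g (1 : 𝕜) ∈ F j := by
        intro j g hg g' hg'
        have : g' ≠ g := fun h => hg' (h ▸ hg)
        simp [Pi.single_eq_of_ne this]
      let wv : G → kerSpace (𝕜 := 𝕜) F := fun a =>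
        ⟨_, pre_mem (F := F) (hmemF _ _ (hγ1 a)) (hmemF _ _ (hγ2 a))⟩
      have hwv : ∀ a, ((wv a : kerSpace (𝕜 := 𝕜) F) : lp (fun _ : J => lp (fun _ : Γ => 𝕜) 2) 1) =
          lp.single (E := fun _ : J => lp (fun _ : Γ => 𝕜) 2) 1 (Sum.inl a)
            (lp.single (E := fun _ : Γ => 𝕜) 2 (γ a) (1 : 𝕜)) -
          lp.single (E := fun _ : J => lp (fun _ : Γ => 𝕜) 2) 1 (Sum.inl (nx a))
            (lp.single (E := fun _ : Γ => 𝕜) 2 (γ a) (1 : 𝕜)) := fun a => rfl
      have hwW : ∀ a, wv a ∈ W := by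
        intro a j hj
        have h1 : j ≠ Sum.inl a := fun h => hj (h ▸ mem_range_self a)
        have h2 : j ≠ Sum.inl (nx a) := fun h => hj (h ▸ mem_range_self _)
        rw [hwv, lp.coeFn_sub, Pi.sub_apply]
        simp [Pi.single_eq_of_ne h1, Pi.single_eq_of_ne h2]
      let w : G → W := fun a => ⟨wv a, hwW a⟩
      have hsep : ∀ a b, a ≠ b → 1 ≤ dist (w a) (w b) := by
        intro a b hab
        have h1 : dist (w a) (w b) =
            ‖((wv a : kerSpace (𝕜 := 𝕜) F) : lp (fun _ : J => lp (fun _ : Γ => 𝕜) 2) 1) -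
              ((wv b : kerSpace (𝕜 := 𝕜) F) : lp (fun _ : J => lp (fun _ : Γ => 𝕜) 2) 1)‖ := by
          rw [dist_eq_norm]; rfl
        rw [h1]
        set d := ((wv a : kerSpace (𝕜 := 𝕜) F) : lp (fun _ : J => lp (fun _ : Γ => 𝕜) 2) 1) -
              ((wv b : kerSpace (𝕜 := 𝕜) F) : lp (fun _ : J => lp (fun _ : Γ => 𝕜) 2) 1) with hd
        have h2 : ‖(d (Sum.inl a) : lp (fun _ : Γ => 𝕜) 2) (γ a)‖ ≤ ‖d‖ :=
          (lp.norm_apply_le_norm (by simp) _ _).trans (lp.norm_apply_le_norm (by simp) d _)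
        have h3 : (d (Sum.inl a) : lp (fun _ : Γ => 𝕜) 2) (γ a) = 1 := by
          rw [hd, lp.coeFn_sub, Pi.sub_apply, lp.coeFn_sub, Pi.sub_apply]
          have e1 : (((wv a : kerSpace (𝕜 := 𝕜) F) : lp (fun _ : J => lp (fun _ : Γ => 𝕜) 2) 1)
              (Sum.inl a) : lp (fun _ : Γ => 𝕜) 2) (γ a) = 1 := by
            rw [hwv, lp.coeFn_sub, Pi.sub_apply, lp.coeFn_sub, Pi.sub_apply]
            have : (Sum.inl a : J) ≠ Sum.inl (nx a) := fun h => (hnx a).ne (Sum.inl_injective h)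
            simp [Pi.single_eq_of_ne this]
          have e2 : (((wv b : kerSpace (𝕜 := 𝕜) F) : lp (fun _ : J => lp (fun _ : Γ => 𝕜) 2) 1)
              (Sum.inl a) : lp (fun _ : Γ => 𝕜) 2) (γ a) = 0 := by
            rw [hwv, lp.coeFn_sub, Pi.sub_apply, lp.coeFn_sub, Pi.sub_apply]
            have : (Sum.inl a : J) ≠ Sum.inl b := fun h => hab (Sum.inl_injective h)
            simp only [lp.single_apply, Pi.single_eq_of_ne this]
            by_cases h : (Sum.inl a : J) = Sum.inl (nx b)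
            · rw [h]
              simp [Pi.single_eq_of_ne (hγinj a b hab)]
            · simp [Pi.single_eq_of_ne h]
          rw [e1, e2, sub_zero]
        rw [h3, norm_one] at h2
        exact h2
      have hch : ∀ a : G, ∃ d ∈ D, dist (w a) d < 1 / 2 := fun a =>
        Metric.mem_closure_iff.1 (hD (w a)) _ (by norm_num)
      choose d hdD hd using hch
      have hinj : Function.Injective (fun a : G => (⟨d a, hdD a⟩ : D)) := by
        intro a b hab
        by_contra hne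
        have h1 : d a = d b := congrArg Subtype.val hab
        have h2 := hsep a b hne
        have h3 : dist (w a) (w b) ≤ dist (w a) (d a) + dist (w b) (d b) := by
          calc dist (w a) (w b) ≤ dist (w a) (d a) + dist (d a) (w b) := dist_triangle _ _ _
            _ = dist (w a) (d a) + dist (w b) (d b) := by rw [h1, dist_comm (d b)]
        linarith [hd a, hd b]
      exact mk_le_of_injective hinj
  · -- no complemented superspace of density ℵ₁
    rintro ⟨V, hVcl, hWV, ⟨P, hP1, hP2⟩, hVd⟩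
    obtain ⟨D, hD, hDeq⟩ := dens_spec V
    -- the support of V
    let JV : Set J := ⋃ v : D, Function.support
      (fun j => (((v : V) : kerSpace (𝕜 := 𝕜) F) : lp (fun _ : J => lp (fun _ : Γ => 𝕜) 2) 1) j)
    have hJV : #JV ≤ ℵ_ 1 := by
      have h1 : #JV ≤ Cardinal.sum (fun v : D => #(Function.support
        (fun j => (((v : V) : kerSpace (𝕜 := 𝕜) F) : lp (fun _ : J => lp (fun _ : Γ => 𝕜) 2) 1) j))) :=
        mk_iUnion_le_sum_mk
      refine h1.trans ?_
      have h2 : Cardinal.sum (fun v : D => #(Function.support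
        (fun j => (((v : V) : kerSpace (𝕜 := 𝕜) F) : lp (fun _ : J => lp (fun _ : Γ => 𝕜) 2) 1) j)))
          ≤ Cardinal.sum (fun _ : D => ℵ₀) := by
        apply Cardinal.sum_le_sum
        intro v
        exact Cardinal.le_aleph0_iff_set_countable.2
          (Memℓp.summable_of_one (lp.memℓp _)).countable_support
      refine h2.trans ?_
      rw [Cardinal.sum_const']
      calc #D * ℵ₀ ≤ ℵ_ 1 * ℵ_ 1 := mul_le_mul' (by rw [hDeq, hVd]) hG1
        _ = ℵ_ 1 := mul_eq_self hG1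
    -- a big index outside of it
    have hs : ∃ s : Set G, (Sum.inr s : J) ∉ JV := by
      by_contra hcon
      push Not at hcon
      have h1 : #(Set G) ≤ #JV := by
        apply mk_le_of_injective (f := fun s : Set G => (⟨Sum.inr s, hcon s⟩ : JV))
        intro s t hst
        exact Sum.inr_injective (congrArg Subtype.val hst)
      rw [mk_set, hcard] at h1
      exact absurd (h1.trans hJV) (not_le.2 (cantor _))
    obtain ⟨s, hs⟩ := hs
    have hVs : ∀ v ∈ V, ((v : kerSpace (𝕜 := 𝕜) F) : lp (fun _ : J => lp (fun _ : Γ => 𝕜) 2) 1)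
        (Sum.inr s) = 0 := by
      intro v hv
      have hcl : IsClosed {v : V | ((v : kerSpace (𝕜 := 𝕜) F) :
          lp (fun _ : J => lp (fun _ : Γ => 𝕜) 2) 1) (Sum.inr s) = 0} :=
        isClosed_eq ((lp.evalCLM 𝕜 (fun _ : J => lp (fun _ : Γ => 𝕜) 2) 1 (Sum.inr s)).continuous.comp
          (continuous_subtype_val.comp continuous_subtype_val)) continuous_const
      have hsub : D ⊆ {v : V | ((v : kerSpace (𝕜 := 𝕜) F) :
          lp (fun _ : J => lp (fun _ : Γ => 𝕜) 2) 1) (Sum.inr s) = 0} := by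
        intro v hv
        by_contra h
        exact hs (mem_iUnion.2 ⟨⟨v, hv⟩, h⟩)
      have := hcl.closure_subset_iff.2 hsub (hD ⟨v, hv⟩)
      exact this
    have hPV : ∀ x, P x ∈ V := by
      intro x
      have : P x ∈ Set.range P := mem_range_self x
      rw [hP2] at this
      exact this
    have hPfix : ∀ x ∈ V, P x = x := by
      intro x hx
      have : x ∈ Set.range P := by rw [hP2]; exact hx
      obtain ⟨y, rfl⟩ := this
      exact hP1 y
    refine no_operator (𝕜 := 𝕜) F S (fun g => lp.single (E := fun _ : Γ => 𝕜) 2 g (1 : 𝕜))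
      (fun g => lp.evalCLM 𝕜 (fun _ : Γ => 𝕜) 2 g) ?_ ?_ ?_ ?_ 1 ?_ J₀ (Sum.inr s) ?_ ?_ ?_ P ?_ ?_
    · intro g
      apply ContinuousLinearMap.opNorm_le_bound _ zero_le_one
      intro x
      rw [one_mul]
      exact lp.norm_apply_le_norm (by simp) x g
    · intro g
      change (lp.single (E := fun _ : Γ => 𝕜) 2 g (1 : 𝕜)) g = 1
      simp
    · intro j g hg g' hg'
      have : g' ≠ g := fun h => hg' (h ▸ hg)
      simp [Pi.single_eq_of_ne this]
    · intro j g hg x hx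
      exact hx g hg
    · intro K θ hθ
      have h1 := lp.norm_sum_single (E := fun _ : Γ => 𝕜) (p := 2) (by simp)
        (fun g => (θ g : 𝕜)) K
      have h2 : ∀ g : Γ, (θ g : 𝕜) • lp.single (E := fun _ : Γ => 𝕜) 2 g (1 : 𝕜) =
          lp.single (E := fun _ : Γ => 𝕜) 2 g (θ g : 𝕜) := by
        intro g
        rw [← lp.single_smul]; simp
      simp only [h2]
      have h3 : ∀ g : Γ, ‖((θ g : ℝ) : 𝕜)‖ = 1 := by
        intro g
        rw [RCLike.norm_ofReal, hθ]
      simp only [h3] at h1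
      have h4 : ((2 : ℝ≥0∞)).toReal = (2 : ℝ) := by simp
      rw [h4] at h1
      simp only [Real.rpow_two, one_pow, Finset.sum_const, nsmul_eq_mul, mul_one] at h1
      rw [h1]; simp
    · rintro ⟨a, ha⟩
      exact Sum.inl_ne_inr ha
    · intro K _
      obtain ⟨a, ha⟩ := cofinal_idx hG K.countable_toSet
      exact ⟨Sum.inl a, mem_range_self a, ha⟩
    · intro G' hG' K
      exact free_idx hG s G' hG' K
    · intro x hx
      exact hPfix x (hWV hx)
    · intro x
      exact hVs _ (hPV x)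

end Pool.Agent.Results.MP_52c726_an.Counterexample
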